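import Pool.Agent.Q32.Ov.Cls

/-! One residue class, or one subgroup of residue classes, on sparse windows and the zeros of all L-functions. -/

open Filter Finset

namespace Pool.Agent.Results.MP_9cfc0a_nt.OneClass

/-- `ψ(x; q, a)`. -/
noncomputable def psi (x : ℝ) (q a : ℕ) : ℝ :=
  ∑ n ∈ (Icc 1 ⌊x⌋₊).filter (fun n : ℕ => n ≡ a [MOD q]), ArithmeticFunction.vonMangoldt n

open Classical in
/-- `∑_{n ≤ x, n mod q ∈ H} Λ(n)` for a subgroup `H` of the group of reduced residue classes modulo `q`. -/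
noncomputable def psiSub (x : ℝ) (q : ℕ) (H : Subgroup (ZMod q)ˣ) : ℝ :=
  ∑ n ∈ (Icc 1 ⌊x⌋₊).filter (fun n : ℕ => ∃ u ∈ H, ((u : (ZMod q)ˣ) : ZMod q) = (n : ZMod q)),
    ArithmeticFunction.vonMangoldt n

theorem ext_ind {q : ℕ} [NeZero q] (H : Subgroup (ZMod q)ˣ) (n : ℕ) [Decidable (∃ u ∈ H, (u : ZMod q) = (n : ZMod q))] :
    Pool.Agent.Q32.Ov.ext (Pool.Agent.Q32.Ov.ind H) n = if ∃ u ∈ H, (u : ZMod q) = (n : ZMod q) then 1 else 0 := by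
  classical
  rw [Pool.Agent.Q32.Ov.ext]
  split_ifs with h
  · obtain ⟨u, hu, hun⟩ := h
    rw [Finset.sum_eq_single u]
    · rw [if_pos hun, Pool.Agent.Q32.Ov.ind, if_pos hu]
    · intro v _ hv
      rw [if_neg]
      intro h2
      exact hv (Units.ext (h2.trans hun.symm))
    · intro h2
      exact absurd (Finset.mem_univ _) h2
  · refine Finset.sum_eq_zero fun u _ => ?_
    split_ifs with h2
    · rw [Pool.Agent.Q32.Ov.ind, if_neg]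
      intro hu
      exact h ⟨u, hu, h2⟩
    · rfl

theorem sub_eq {q : ℕ} [NeZero q] (H : Subgroup (ZMod q)ˣ) (x : ℝ) :
    Pool.Agent.Q32.Ov.cE (Pool.Agent.Q32.Ov.ind H) x =
      ((psiSub x q H - (Nat.card H : ℝ) / q.totient * x : ℝ) : ℂ) := by
  classical
  rw [Pool.Agent.Q32.Ov.cE, psiSub]
  push_cast
  congr 1
  · rw [Finset.sum_filter]
    refine Finset.sum_congr rfl fun n _ => ?_
    rw [ext_ind H n]
    split_ifs <;> simp
  · congr 2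
    simp_rw [Pool.Agent.Q32.Ov.ind]
    rw [Finset.sum_boole, Nat.card_eq_fintype_card, Fintype.card_subtype]

/-- First part: if `L(ρ, χ) = 0`, `ρ ≠ 1`, for a character `χ` modulo `q` that is trivial on the subgroup `H`,
then for every `θ < Re ρ` and `0 < δ < 1`, for all large `X` some `x` in `[X^(1-δ), X]` has
`|∑_{n ≤ x, n mod q ∈ H} Λ(n) - (|H|/φ(q)) x| > x^θ`.
Second part: if for the single class `1` modulo `q` the bound `|ψ(x;q,1) - x/φ(q)| ≤ x^c` holds on the windows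
`[X^(1-δ), X]` of arbitrarily large `X`, then no `L(s, χ)`, `χ` modulo `q`, has a zero with `Re s > c`. -/
theorem result :
    (∀ (q : ℕ) [NeZero q] (H : Subgroup (ZMod q)ˣ) (χ : DirichletCharacter ℂ q),
      (∀ v ∈ H, χ ((v : (ZMod q)ˣ) : ZMod q) = 1) → ∀ ρ : ℂ, ρ ≠ 1 → DirichletCharacter.LFunction χ ρ = 0 →
      ∀ θ δ : ℝ, θ < ρ.re → 0 < δ → δ < 1 → ∃ X₀ : ℝ, ∀ X : ℝ, X₀ ≤ X → ∃ x : ℝ, X ^ (1 - δ) ≤ x ∧ x ≤ X ∧
        x ^ θ < |psiSub x q H - (Nat.card H : ℝ) / q.totient * x|) ∧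
    (∀ (q : ℕ) [NeZero q] (c δ : ℝ), 0 < δ → δ < 1 →
      (∀ X₀ : ℝ, ∃ X : ℝ, X₀ ≤ X ∧ ∀ x : ℝ, X ^ (1 - δ) ≤ x → x ≤ X → |psi x q 1 - x / q.totient| ≤ x ^ c) →
      ∀ (χ : DirichletCharacter ℂ q) (s : ℂ), c < s.re → (s ≠ 1 ∨ χ ≠ 1) →
        DirichletCharacter.LFunction χ s ≠ 0) := by
  have h1 : ∀ (q : ℕ) [NeZero q] (H : Subgroup (ZMod q)ˣ) (χ : DirichletCharacter ℂ q),
      (∀ v ∈ H, χ ((v : (ZMod q)ˣ) : ZMod q) = 1) → ∀ ρ : ℂ, ρ ≠ 1 → DirichletCharacter.LFunction χ ρ = 0 →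
      ∀ θ δ : ℝ, θ < ρ.re → 0 < δ → δ < 1 → ∃ X₀ : ℝ, ∀ X : ℝ, X₀ ≤ X → ∃ x : ℝ, X ^ (1 - δ) ≤ x ∧ x ≤ X ∧
        x ^ θ < |psiSub x q H - (Nat.card H : ℝ) / q.totient * x| := by
    intro q _ H χ hχ ρ hρ h0 θ δ hθ hδ hδ1
    obtain ⟨X₀, hX₀⟩ := eventually_atTop.1 (Pool.Agent.Q32.Ov.sub_window H hχ hρ h0 hθ hδ hδ1)
    refine ⟨X₀, fun X hX => ?_⟩
    obtain ⟨x, ⟨hx1, hx2⟩, hx3⟩ := hX₀ X hX
    refine ⟨x, hx1, hx2, ?_⟩
    rwa [sub_eq, Complex.norm_real] at hx3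
  refine ⟨h1, ?_⟩
  intro q _ c δ hδ hδ1 h χ s hs hsχ h0
  have hs1 : s ≠ 1 := by
    rintro rfl
    rcases hsχ with h2 | h2
    · exact h2 rfl
    · exact DirichletCharacter.LFunction_apply_one_ne_zero h2 h0
  obtain ⟨X₀, hX₀⟩ := h1 q ⊥ χ (fun v hv => by rw [Subgroup.mem_bot.1 hv, Units.val_one, map_one]) s hs1 h0 c δ hs hδ hδ1
  obtain ⟨X, hX, h3⟩ := h X₀
  obtain ⟨x, hx1, hx2, hx3⟩ := hX₀ X hX
  have h4 := h3 x hx1 hx2
  have h5 : psiSub x q ⊥ - (Nat.card (⊥ : Subgroup (ZMod q)ˣ) : ℝ) / q.totient * x = psi x q 1 - x / q.totient := by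
    rw [Subgroup.card_bot, psiSub, psi]
    congr 1
    · refine Finset.sum_congr ?_ fun _ _ => rfl
      ext n
      simp only [Finset.mem_filter, Finset.mem_Icc, and_congr_right_iff]
      intro _
      rw [← ZMod.natCast_eq_natCast_iff, Nat.cast_one]
      constructor
      · rintro ⟨u, hu, h6⟩
        rw [← h6, Subgroup.mem_bot.1 hu, Units.val_one]
      · intro h6
        exact ⟨1, Subgroup.mem_bot.2 rfl, by rw [h6, Units.val_one]⟩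
    · push_cast
      ring
  rw [h5] at hx3
  exact absurd h4 (not_le.2 hx3)

end Pool.Agent.Results.MP_9cfc0a_nt.OneClass
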