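import Pool.Agent.Q25.GReg6

/-!
# Regular points of ARBITRARY sets of primes `≡ a mod q`, uniformly in `q` up to any power of `X`

Call `m` good if `q m + a` has no prime factor `≤ X ^ (1/r)`; for instance if `q m + a` is a prime larger than `X ^ (1/r)`. For
all moduli `q ≤ X ^ E` with `q / φ(q) ≤ K`, all `a ≤ X ^ E` prime to `q`, all intervals `(u, u + Y]`, `X ^ θ ≤ Y ≤ X`, and EVERY
set `A` of good integers, almost all elements of `A` in the interval are regular points of `A`.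
-/

set_option autoImplicit false

namespace Pool.Agent.Results.MP_9cfc0a_nt.RegularPoints

open Finset

/-- `q m + a` has no prime factor `≤ X ^ (1 / r)` -/
def Good (q a r X m : ℕ) : Prop := ∀ p : ℕ, p.Prime → (p : ℝ) ≤ (X : ℝ) ^ (1 / (r : ℝ)) → ¬ p ∣ q * m + a

/-- the density of the good `m`: the product of `1 - 1 / p` over the primes `p ≤ X ^ (1/r)` not dividing `q` -/
noncomputable def V (q r X : ℕ) : ℝ :=
  ∏ p ∈ (Icc 1 ⌊(X : ℝ) ^ (1 / (r : ℝ))⌋₊).filter (fun p => p.Prime ∧ ¬ p ∣ q), (1 - 1 / (p : ℝ))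

open Classical in
/-- the number of the elements of `A` in `(u, v]` -/
noncomputable def N (A : Set ℕ) (u v : ℕ) : ℕ := ((Ioc u v).filter (fun m => m ∈ A)).card

/-- All intervals `(m - s, m + t]` with `s, t ≤ Y` of length at least `1 / (c V)` contain the right order of elements
of `A`, i.e. between `c V (s + t)` and `V (s + t) / c`. -/
def RightOrder (A : Set ℕ) (V c : ℝ) (Y m : ℕ) : Prop :=
  ∀ s t : ℕ, s ≤ Y → t ≤ Y → 1 / V ≤ c * (s + t) →
    c * (s + t) * V ≤ N A (m - s) (m + t) ∧ (N A (m - s) (m + t) : ℝ) ≤ (s + t) * V / c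

/-- Up to `δ`, `A` has a constant density on both sides of `m` up to the distance `2 ^ j`. -/
def ConstantDensity (A : Set ℕ) (V c δ : ℝ) (m j : ℕ) : Prop :=
  ∃ lam : ℝ, c ≤ lam ∧ lam ≤ 1 / c ∧ ∀ s t : ℕ, s ≤ 2 ^ j → t ≤ 2 ^ j →
    |(N A (m - s) (m + t) : ℝ) - lam * (s + t) * V| ≤ δ * 2 ^ j * V

open Classical in
/-- the number of the scales `1 / V ≤ 2 ^ j ≤ Y` without this property -/
noncomputable def badScales (A : Set ℕ) (V c δ : ℝ) (Y m : ℕ) : ℕ :=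
  ((range (Nat.log 2 Y + 1)).filter (fun j => 1 / V ≤ (2 : ℝ) ^ j ∧ ¬ ConstantDensity A V c δ m j)).card

/-- The elements of `A` that are not regular points of `A`, relative to the density `V`. -/
def Irregular (A : Set ℕ) (V c δ : ℝ) (B Y : ℕ) : Set ℕ :=
  {m | m ∈ A ∧ ¬ (RightOrder A V c Y m ∧ badScales A V c δ Y m ≤ B)}

/-- **Regular points of arbitrary sets of primes of a residue class, uniformly in the modulus.** -/
theorem result (E θ : ℝ) (hE : 0 < E) (hθ : 0 < θ) :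
    ∃ r₀ : ℕ, ∀ r : ℕ, r₀ ≤ r → ∀ K ε : ℝ, 0 < ε → ∃ c : ℝ, 0 < c ∧ ∀ δ : ℝ, 0 < δ → ∃ B X₀ : ℕ,
      ∀ X : ℕ, X₀ ≤ X → ∀ q a : ℕ, 1 ≤ q → a.Coprime q → (q : ℝ) ≤ (X : ℝ) ^ E → (a : ℝ) ≤ (X : ℝ) ^ E →
        (q : ℝ) ≤ K * q.totient → ∀ u Y : ℕ, (X : ℝ) ^ θ ≤ Y → Y ≤ X → Y ≤ u →
          ∀ A : Set ℕ, (∀ m ∈ A, Good q a r X m) →
            (N (Irregular A (V q r X) c δ B Y) u (u + Y) : ℝ) ≤ ε * (Y * V q r X) := by
  classical
  obtain ⟨r₀, hr₀, h⟩ := Pool.Agent.Q25.UReg.poly_reg 1 1 E θ hE hθ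
  refine ⟨r₀, fun r hr K ε hε => ?_⟩
  obtain ⟨M, X₁, hM⟩ := Pool.Agent.Q25.GReg.VL_small r (by omega) K
  obtain ⟨c, hc, h1⟩ := h r hr M ε hε
  refine ⟨c, hc, fun δ hδ => ?_⟩
  obtain ⟨B, hB⟩ := h1 δ hδ
  obtain ⟨X₂, hX₂⟩ := Filter.eventually_atTop.1 hB
  refine ⟨B, max X₁ X₂, fun X hX q a hq hc h1 h2 h3 u Y hXY hYX hYu A hA => ?_⟩
  have hG : ∀ m, Good q a r X m → Pool.Agent.Q25.UReg.GoodP (Pool.Agent.Q25.GReg.fL q a) r X m := by
    intro m g
    unfold Pool.Agent.Q25.UReg.GoodP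
    simp only [Pool.Agent.Q25.GReg.fL_eval]
    intro p hp hpX i hd
    exact g p hp hpX (by exact_mod_cast hd)
  have hV : Pool.Agent.Q25.UReg.VP (Pool.Agent.Q25.GReg.fL q a) r X = V q r X := Pool.Agent.Q25.GReg.VP_fL hc r X
  have g := hX₂ X ((le_max_right _ _).trans hX) _ (Pool.Agent.Q25.GReg.fL_sys hq hc h1 h2)
    (hM X ((le_max_left _ _).trans hX) q a hq hc h3) u Y hXY hYX hYu A (fun m hm => hG m (hA m hm))
  rw [hV] at g
  exact g

end Pool.Agent.Results.MP_9cfc0a_nt.RegularPoints
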