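import Pool.Agent.Q25.GReg6

/-!
# Poisson and gap laws for the almost primes `≡ a mod q` in short intervals, uniformly in `q` up to any power of `X`

Call `m` good if `q m + a` has no prime factor `≤ X ^ (1/r)`. For all moduli `q ≤ X ^ E` with `q / φ(q) ≤ K`, all `a ≤ X ^ E`
prime to `q` and ALL intervals `(Z, Z + Y]` with `Y ≥ X ^ θ` (that is, intervals of length `q Y` in the residue class) the
numbers of the good `m` in windows follow the Poisson law and the gaps between the good `m` are exponentially distributed,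
up to `ε`.
-/

set_option autoImplicit false

namespace Pool.Agent.Results.MP_9cfc0a_nt.UniformLaws

open Finset

/-- `q m + a` has no prime factor `≤ X ^ (1 / r)` -/
def Good (q a r X m : ℕ) : Prop := ∀ p : ℕ, p.Prime → (p : ℝ) ≤ (X : ℝ) ^ (1 / (r : ℝ)) → ¬ p ∣ q * m + a

/-- the density of the good `m`: the product of `1 - 1 / p` over the primes `p ≤ X ^ (1/r)` not dividing `q` -/
noncomputable def V (q r X : ℕ) : ℝ :=
  ∏ p ∈ (Icc 1 ⌊(X : ℝ) ^ (1 / (r : ℝ))⌋₊).filter (fun p => p.Prime ∧ ¬ p ∣ q), (1 - 1 / (p : ℝ))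

/-- the Poisson probability of `j` for the expected value `x` -/
noncomputable def pois (x : ℝ) (j : ℕ) : ℝ := Real.exp (-x) * x ^ j / j.factorial

open Classical in
/-- the number of the good integers in `(n, n + T]` -/
noncomputable def count (q a r X T n : ℕ) : ℕ := ((Ioc n (n + T)).filter (fun m => Good q a r X m)).card

open Classical in
/-- The Poisson law: in `(Z, Z + Y]` the proportion of the `n` for which the number of the good integers in `(n, n + T]`
belongs to `S` is, up to `ε`, the Poisson probability of `S` with expected value `T V`; for all `T V ≤ x₀` and all `S`. -/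
def PoissonLaw (q a r X Z Y : ℕ) (x₀ ε : ℝ) : Prop :=
  ∀ T : ℕ, T * V q r X ≤ x₀ → ∀ S : Finset ℕ,
    |(((Ioc Z (Z + Y)).filter (fun n => count q a r X T n ∈ S)).card : ℝ) - Y * ∑ j ∈ S, pois (T * V q r X) j| ≤ ε * Y

open Classical in
/-- The gap laws: the number of the good `n ∈ (Z, Z + Y]` with fewer than `l` good integers in `[n - T, n)` is `Y V` times
the Poisson probability (expected value `T V`) of a number `< l`, up to `ε Y V`; for all `T` and `l ≤ l₀`, and for all `l`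
and `T V ≤ x₀`. -/
def GapLaw (q a r X Z Y : ℕ) (l₀ : ℕ) (x₀ ε : ℝ) : Prop :=
  ∀ l T : ℕ, (l ≤ l₀ ∨ T * V q r X ≤ x₀) →
    |(((Ioc Z (Z + Y)).filter (fun n => Good q a r X n ∧
        ((Ico (n - T) n).filter (fun m => Good q a r X m)).card < l)).card : ℝ) -
      Y * V q r X * ∑ j ∈ range l, pois (T * V q r X) j| ≤ ε * (Y * V q r X)

/-- **Poisson and gap laws for the almost primes of a residue class, uniformly in the modulus.** -/
theorem result (E θ : ℝ) (hE : 0 < E) (hθ : 0 < θ) (l₀ : ℕ) (x₀ ε : ℝ) (hε : 0 < ε) :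
    ∃ r₀ : ℕ, ∀ r : ℕ, r₀ ≤ r → ∀ K : ℝ, ∃ X₀ : ℕ, ∀ X : ℕ, X₀ ≤ X → ∀ q a : ℕ, 1 ≤ q → a.Coprime q →
      (q : ℝ) ≤ (X : ℝ) ^ E → (a : ℝ) ≤ (X : ℝ) ^ E → (q : ℝ) ≤ K * q.totient → ∀ Z Y : ℕ, (X : ℝ) ^ θ ≤ Y →
        PoissonLaw q a r X Z Y x₀ ε ∧ GapLaw q a r X Z Y l₀ x₀ ε := by
  classical
  obtain ⟨r₀, hr₀, h⟩ := Pool.Agent.Q25.UReg.poly_laws 1 1 E 1 θ hE one_pos hθ l₀ x₀ ε hε
  refine ⟨r₀, fun r hr K => ?_⟩
  obtain ⟨M, X₁, hM⟩ := Pool.Agent.Q25.GReg.VL_small r (by omega) K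
  obtain ⟨X₂, hX₂⟩ := Filter.eventually_atTop.1 (h r hr M)
  refine ⟨max X₁ X₂, fun X hX q a hq hc h1 h2 h3 Z Y hY => ?_⟩
  have hG : ∀ m, Pool.Agent.Q25.UReg.GoodP (Pool.Agent.Q25.GReg.fL q a) r X m ↔ Good q a r X m := by
    intro m
    unfold Pool.Agent.Q25.UReg.GoodP Good
    simp only [Pool.Agent.Q25.GReg.fL_eval]
    constructor
    · intro g p hp hpX hd
      exact g p hp hpX 0 (by exact_mod_cast hd)
    · intro g p hp hpX i hd
      exact g p hp hpX (by exact_mod_cast hd)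
  have hV : Pool.Agent.Q25.UReg.VP (Pool.Agent.Q25.GReg.fL q a) r X = V q r X := Pool.Agent.Q25.GReg.VP_fL hc r X
  obtain ⟨g1, g2⟩ := hX₂ X ((le_max_right _ _).trans hX) _ (Pool.Agent.Q25.GReg.fL_sys hq hc h1 h2)
    (hM X ((le_max_left _ _).trans hX) q a hq hc h3) (Pool.Agent.Q25.GReg.fL_noTr a hq _) Z Y hY
  constructor
  · intro T hT S
    have g3 := g1 T (by rw [hV]; exact hT) S
    rw [hV] at g3
    unfold Pool.Agent.Q25.UReg.countP at g3
    simp only [hG] at g3
    exact g3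
  · intro l T hT
    have g3 := g2 l T (by rw [hV]; exact hT)
    rw [hV] at g3
    simp only [hG] at g3
    exact g3

end Pool.Agent.Results.MP_9cfc0a_nt.UniformLaws
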